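import Mathlib
import Pool.Agent.Q35.DP.All
import Pool.Agent.Q203.DPF.Pta

/-!
# Geometric Manin's Conjecture fails for a del Pezzo fibration over an elliptic curve

Let `B` be the elliptic curve `y ^ 2 = x (x - 1) (x - lam)` over `ℂ`, `lam` transcendental, `o` the
point at infinity and `K = KB ℂ lam` its function field. The divisor of `x` is `2 (0, 0) - 2 o`, so
`√x` defines an étale double cover `B' → B`. Let `F` be the del Pezzo surface
`w ^ 2 = g 0 ^ 4 + g 1 ^ 4 + g 2 ^ 4` of degree two in `P(1, 1, 1, 2)` and
`π : X = (B' × F) / (ℤ / 2) → B`, where `ℤ / 2` acts on `F` by `w ↦ - w`. `X` is smooth and projective,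
all fibres are isomorphic to `F`, `- K_{X/B}` is ample on the fibres. The generic fibre is the surface
`x h ^ 2 = g 0 ^ 4 + g 1 ^ 4 + g 2 ^ 4` over `K` (`w = √x h`). The Geiser involution `w ↦ - w` acts as
`-1` on the orthogonal complement of the canonical class in the Picard group of `F`, so the Picard
rank of the generic fibre is one, and the conjecture says that `N_q(d) / q ^ d` converges to a
positive number for every `q > 1`.

The sections of `π` are the points `(g, h)` of the generic fibre over `K`, up to
`(f g, f ^ 2 h)`, `f ≠ 0`, and the number `- K_{X/B} . C` of the section `C` is the degree `ht g` of the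
map `g : B → P²`. (The section pulls back to an equivariant map `B' → F`; `- K_F` is the pull-back of
a line.) By the first part of the theorem every section of height `d` is represented by functions
`g i` with poles only at `o`, of order at most `d + 1`, and by a function `x h` with poles only at
`o`, of order at most `2 d + 3`, and the representation is unique up to `(t g, t ^ 2 h)`, `t ∈ ℂ ^ *`:
the set `cone x y d` of these representations (a locally closed subset of an affine space, the
coordinates are the coefficients with respect to the basis `1, x, y, x ^ 2, x y, …`) is a
`ℂ ^ *`-bundle over the space of the sections of height `d`. So the components `M` of the space of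
sections correspond to those of the cone, and the dimension of the component of the space of sections
is `dimA M - 1`.

* For an odd prime `p` all components of the space of sections of height `p` have at most the expected
  dimension `p`.
* For `m ≥ 2` there is a component of the space of the sections of height `2 m` of dimension at least
  `2 m + 1`, larger than the expected dimension `2 m`, and its sections are not contained in a
  surface, so it is a Manin component.
* Therefore there is a `q > 1` for which `N_q(d) / q ^ d` does not converge to a positive real number.
  `A` is an arbitrary set of components each of which consists of sections contained in one surface,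
  in particular one can take for `A` the accumulating components. (In fact there are none: the class
  of a curve on the generic fibre is a multiple `- n K`, and such a curve has the anticanonical
  degree `2 n` and the arithmetic genus `n ^ 2 - n + 1 > 0`.)

The upper bound: let `δ` be the invariant derivation of `K` and `D` a lift of a derivation of `ℂ`. The
determinant of `g`, `δ g`, `D g` lies in a space of dimension `p` (Riemann-Roch), since it is divisible
by the square root of the branch divisor, and it vanishes only for a space of derivations of
dimension at most two. The large components: the maps to the moving tangent lines of the branch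
quartic.

Contributors (lemmas): helper54, helper63, helper72, helper77, helper92, helper94, helper113,
helper119, helper160, helper177, helper178, helper186, helper192, helper203, helper221, helper231,
helper277, helper278; definitions and statements: starting library `Pool.Agent.Y166.DP`.
-/

set_option autoImplicit false

namespace Pool.Agent.Results.MP_8ae0c1_ag.EllipticBase

open Pool.Agent.Y166.DP Pool.Agent.Q35.DP

theorem result (lam : ℂ) (hlam : Transcendental ℚ lam) :
    -- the sections of height `d` are represented by the points of the cone, uniquely up to scalars
    (∀ (d : ℕ) (g : Fin 3 → KB ℂ lam) (h : KB ℂ lam), g ≠ 0 →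
      xB ℂ lam * h ^ 2 = quart g → ht ℂ g = d →
      (∃ c : Idx d → ℂ, c ∈ cone (xB ℂ lam) (yB ℂ lam) d ∧ Repr (xB ℂ lam) (yB ℂ lam) c g h) ∧
      ∀ c c' : Idx d → ℂ, Repr (xB ℂ lam) (yB ℂ lam) c g h → Repr (xB ℂ lam) (yB ℂ lam) c' g h →
        ∃ t : ℂ, t ≠ 0 ∧ (∀ p, c' (.inl p) = t * c (.inl p)) ∧
          ∀ p, c' (.inr p) = t ^ 2 * c (.inr p)) ∧
    -- odd prime height: no component is larger than expected
    (∀ p : ℕ, p.Prime → Odd p → ∀ M : Set (Idx p → ℂ),
      IsComp (cone (xB ℂ lam) (yB ℂ lam) p) M → dimA M - 1 ≤ p) ∧
    -- even height: a Manin component larger than expected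
    (∀ m : ℕ, 2 ≤ m → ∃ M : Set (Idx (2 * m) → ℂ),
      IsComp (cone (xB ℂ lam) (yB ℂ lam) (2 * m)) M ∧ 2 * m + 1 ≤ dimA M - 1 ∧
        ¬ InSurface (xB ℂ lam) (yB ℂ lam) M) ∧
    -- the conjectured asymptotic formula fails
    ∀ A : (d : ℕ) → Set (Set (Idx d → ℂ)),
      (∀ d, ∀ M ∈ A d, InSurface (xB ℂ lam) (yB ℂ lam) M) →
      ¬ ∀ q : ℝ, 1 < q → ∃ C : ℝ, 0 < C ∧ Filter.Tendsto
        (fun d : ℕ => NN (xB ℂ lam) (yB ℂ lam) A q d / ENNReal.ofReal q ^ d) Filter.atTop
        (nhds (ENNReal.ofReal C)) :=
  main (Pool.Agent.Q203.DPF.pta inf hPts hBasis hPhi hUU Pool.Agent.Q278.DP.tan) lam hlam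

end Pool.Agent.Results.MP_8ae0c1_ag.EllipticBase
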